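import Pool.Agent.TWT.Final

/-!
# A counterexample to the minuscule bi-analytic p-adic Ax-Schanuel conjecture

`G = GL₂ × D^×` with `D = (-1, p)`, `p ≡ 3 mod 4`, `μ` of type `(1, 0)` in both factors, `b` basic,
`L = Breve(η)`, `C = ℂ_p`, `D = Fl × Fl` (four copies of `ℙ¹`), and `S ≅ ℙ¹` the curve of all
`((x, y), (y, x))` with the fixed line `x = [-η : 1]`, `η² = p⁵`. The local Shimura variety of
`G` is the product of the Lubin-Tate tower and the Drinfeld tower; these towers are isomorphic, the
isomorphism exchanges the two periods and is not induced by a homomorphism of groups. The point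
`z = (z₁, z₂)` consists of a point `z₁` of the first tower with Hodge period `x` and of its image
`z₂` in the second tower.

Dictionary. `C`-points of the infinite level local Shimura variety: isomorphisms `E₁ → E_b` of
`G`-bundles away from `∞`, of type `[μ]` at `∞`, that is `z ∈ G(B_cris)` with `b φ(z) = z` and the
condition on the germ at `∞` (`Datum.IsPoint`). Periods: `hodge`, `hodgeTate`. Special
subvarieties: `Datum.IsSub`, `Datum.InSpecial`; strictness: `Datum.IsStrict`. The three conditions
on a special subdatum which are dropped here (`b_H` basic, `H` connected, one connected component)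
make the statement stronger.

The lattices at `∞` of the bundles `𝔤° ⊗ O`, `E_max`, `E_S` at a geometric point `Spd C' → M` are
the modules `latTriv`, `latMax`, `latS` over `R = B_dR⁺(C')`, multiplied by a uniformizer `t`;
`DegreeCount` says that `E_max / (𝔤° ⊗ O)` and `E_max / E_S` have lengths `2` and `3`, so `E_S` has
degree `-1` and one of its slopes is negative. As `dim S = 1 < 2 = ⟨2ρ, μ⟩`, every component of
`M^τ ∩ S` is exceptional (`τ = det z`), also the component of `z`.
-/

namespace Pool.Agent.Results.MP_fcebe8_nt.TwoTowers

open Crys

/-- For every prime `p ≡ 3 mod 4` the datum `GL₂ × D^×` and the curve `S` satisfy: `E_S` has degree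
`-1` at every geometric point with periods in `S`, and some `ℂ_p`-point `z` with periods in `S` lies
in no strictly special subvariety. -/
theorem result (p : ℕ) [Fact p.Prime] (h : p % 4 = 3) :
    ∃ I η : Qb p, I ^ 2 = -1 ∧ η ^ 2 = (p : Qb p) ^ 5 ∧
      (twin p I).IsDatum ∧ TwinBasic p ∧
      curveS p (toCp p I) (toCp p η) ⊆ (twin p I).D ∧ DegreeCount p I η ∧
      ∃ z : Matrix Six Six (Bcris p), (twin p I).IsPoint z ∧
        (hodge (thetaB p) z, hodgeTate (thetaB p) z) ∈ curveS p (toCp p I) (toCp p η) ∧
        (twin p I).InSpecial (twin p I) z ∧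
        ∀ Y : Datum p Six, (twin p I).IsStrict Y → ¬ (twin p I).InSpecial Y z :=
  final p h

end Pool.Agent.Results.MP_fcebe8_nt.TwoTowers
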